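import Mathlib

/-!
# MP_9e990c_al, block R: endomorphisms of a domain extended to the fraction field
-/

namespace Pool.Agent.H.MP_9e990c_al.h70

variable {O : Type*} [CommRing O] [IsDomain O]

/-- extension of an injective endomorphism to the fraction field -/
noncomputable def frMap (f : O →+* O) (hf : Function.Injective f) :
    FractionRing O →+* FractionRing O :=
  IsFractionRing.map (K := FractionRing O) (L := FractionRing O) hf

@[simp] lemma frMap_alg (f : O →+* O) (hf : Function.Injective f) (r : O) :
    frMap f hf (algebraMap O (FractionRing O) r) = algebraMap O (FractionRing O) (f r) := by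
  unfold frMap IsFractionRing.map
  exact IsLocalization.map_eq _ r

lemma frac_hom_ext {L : Type*} [Semiring L] {g h : FractionRing O →+* L}
    (H : ∀ r, g (algebraMap O (FractionRing O) r) = h (algebraMap O (FractionRing O) r)) :
    g = h :=
  IsLocalization.ringHom_ext (nonZeroDivisors O) (RingHom.ext H)

lemma frac_hom_ext' {L : Type*} [Semiring L] {g h : FractionRing O →+* L}
    (H : ∀ r, g (algebraMap O (FractionRing O) r) = h (algebraMap O (FractionRing O) r))
    (x : FractionRing O) : g x = h x := by
  rw [frac_hom_ext H]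

/-- denominators are powers of `π` -/
lemma frac_pow {M : Type*} [Field M] (red : O →+* M) (P : O)
    (sep : ∀ a : O, (∀ n : ℕ, ∃ b, a = P ^ n * b) → a = 0)
    (ker : ∀ a, red a = 0 → ∃ b, a = P * b)
    (unit : ∀ a, red a ≠ 0 → IsUnit a) (x : FractionRing O) :
    ∃ (n : ℕ) (a : O), algebraMap O (FractionRing O) P ^ n * x = algebraMap O (FractionRing O) a := by
  obtain ⟨a, b, hb, rfl⟩ := IsFractionRing.div_surjective (A := O) x
  have hb0 : b ≠ 0 := nonZeroDivisors.ne_zero hb
  have key : ∃ (n : ℕ) (b0 : O), b = P ^ n * b0 ∧ red b0 ≠ 0 := by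
    by_contra hcon
    push Not at hcon
    apply hb0
    apply sep
    intro n
    induction n with
    | zero => exact ⟨b, by simp⟩
    | succ n ih =>
      obtain ⟨c, hc⟩ := ih
      obtain ⟨d, hd⟩ := ker c (hcon n c hc)
      exact ⟨d, by rw [hc, hd, pow_succ, mul_assoc]⟩
  obtain ⟨n, b0, hbb, hr⟩ := key
  obtain ⟨u, hu⟩ := unit b0 hr
  refine ⟨n, a * (↑u⁻¹ : O), ?_⟩
  have hPb : algebraMap O (FractionRing O) b ≠ 0 := by
    rw [Ne, FaithfulSMul.algebraMap_eq_zero_iff]; exact hb0
  rw [← mul_div_assoc, div_eq_iff hPb, hbb, ← hu]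
  simp only [map_mul, map_pow]
  have h1 : algebraMap O (FractionRing O) (↑u⁻¹ : O) * algebraMap O (FractionRing O) (↑u : O) = 1 := by
    rw [← map_mul, Units.inv_mul, map_one]
  linear_combination (-(algebraMap O (FractionRing O) P ^ n * algebraMap O (FractionRing O) a)) * h1

end Pool.Agent.H.MP_9e990c_al.h70
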