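import Pool.Agent.H.MP_9e990c_al.h70.OrdLoc
import Pool.Agent.H.MP_9e990c_al.h70.Frac

/-!
# MP_9e990c_al, block R: the tower over `O` inside the tower over `Frac O`
-/

namespace Pool.Agent.H.MP_9e990c_al.h70

/-- a ring which is left free over `K` with basis `z1^a z3^b z2^c` -/
structure Tow (K S : Type*) [CommRing K] [Ring S] where
  i : K →+* S
  z1 : S
  z2 : S
  z3 : S
  coord : ∀ x : S, ∃! c : Fin 3 → Fin 3 → Fin 3 → K,
    x = ∑ a, ∑ b, ∑ d, i (c a b d) * (z1 ^ (a : ℕ) * z3 ^ (b : ℕ) * z2 ^ (d : ℕ))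

namespace Tow

variable {K S : Type*} [CommRing K] [Ring S] (T : Tow K S)

/-- the sum with given coordinates -/
def sm (c : Fin 3 → Fin 3 → Fin 3 → K) : S :=
  ∑ a, ∑ b, ∑ d, T.i (c a b d) * (T.z1 ^ (a : ℕ) * T.z3 ^ (b : ℕ) * T.z2 ^ (d : ℕ))

lemma exists_sm (x : S) : ∃ c, x = T.sm c := (T.coord x).exists

lemma sm_inj {c c' : Fin 3 → Fin 3 → Fin 3 → K} (h : T.sm c = T.sm c') : c = c' :=
  (T.coord (T.sm c)).unique rfl h

lemma sm_zero : T.sm (fun _ _ _ => 0) = 0 := by simp [sm]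

lemma mul_sm (r : K) (c : Fin 3 → Fin 3 → Fin 3 → K) :
    T.i r * T.sm c = T.sm (fun a b d => r * c a b d) := by
  simp only [sm, Finset.mul_sum, map_mul, mul_assoc]

lemma i_inj [Nontrivial K] : Function.Injective T.i := by
  rw [injective_iff_map_eq_zero]
  intro r hr
  have h1 : T.sm (fun a b d => if a = 0 ∧ b = 0 ∧ d = 0 then r else 0) = 0 := by
    unfold sm
    rw [Finset.sum_eq_single 0, Finset.sum_eq_single 0, Finset.sum_eq_single 0]
    · simp [hr]
    · intro b _ hb; simp [hb]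
    · simp
    · intro b _ hb; simp [hb]
    · simp
    · intro b _ hb; simp [hb]
    · simp
  have h2 := T.sm_inj (h1.trans T.sm_zero.symm)
  have h3 := congrFun (congrFun (congrFun h2 0) 0) 0
  simpa using h3

include T in
lemma nontrivial [Nontrivial K] : Nontrivial S := T.i_inj.nontrivial

/-- two ring homs agreeing on `K` and the `z_j` are equal -/
lemma hom_ext {S' : Type*} [Ring S'] {f g : S →+* S'} (h0 : ∀ r, f (T.i r) = g (T.i r))
    (h1 : f T.z1 = g T.z1) (h2 : f T.z2 = g T.z2) (h3 : f T.z3 = g T.z3) (x : S) : f x = g x := by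
  obtain ⟨c, rfl⟩ := T.exists_sm x
  simp only [sm, map_sum, map_mul, map_pow, h0, h1, h2, h3]

/-- an additive subgroup closed under multiplication containing the generators is everything -/
lemma induct {p : S → Prop} (h0 : ∀ r, p (T.i r)) (h1 : p T.z1) (h2 : p T.z2) (h3 : p T.z3)
    (hadd : ∀ x y, p x → p y → p (x + y)) (hmul : ∀ x y, p x → p y → p (x * y)) (x : S) : p x := by
  have hone : p 1 := by rw [← map_one T.i]; exact h0 1
  have hzero : p 0 := by rw [← map_zero T.i]; exact h0 0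
  have hpow : ∀ y, p y → ∀ n : ℕ, p (y ^ n) := by
    intro y hy n
    induction n with
    | zero => rw [pow_zero]; exact hone
    | succ n ih => rw [pow_succ]; exact hmul _ _ ih hy
  obtain ⟨c, rfl⟩ := T.exists_sm x
  unfold sm
  refine Finset.sum_induction _ p hadd hzero fun a _ => ?_
  refine Finset.sum_induction _ p hadd hzero fun b _ => ?_
  refine Finset.sum_induction _ p hadd hzero fun d _ => ?_
  exact hmul _ _ (h0 _) (hmul _ _ (hmul _ _ (hpow _ h1 _) (hpow _ h3 _)) (hpow _ h2 _))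

end Tow

section frac

variable {O S M E : Type*} [CommRing O] [IsDomain O] [Ring S] [Field M] [Ring E]
  (T : Tow O S) (T' : Tow (FractionRing O) E) (j : S →+* E)

lemma j_sm (hji : ∀ r, j (T.i r) = T'.i (algebraMap O (FractionRing O) r))
    (h1 : j T.z1 = T'.z1) (h2 : j T.z2 = T'.z2) (h3 : j T.z3 = T'.z3)
    (c : Fin 3 → Fin 3 → Fin 3 → O) :
    j (T.sm c) = T'.sm (fun a b d => algebraMap O (FractionRing O) (c a b d)) := by
  simp only [Tow.sm, map_sum, map_mul, map_pow, hji, h1, h2, h3]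

/-- the tower over `Frac O` is the localisation of the tower over `O` at the powers of `π` -/
theorem ordLoc_of_tow (hji : ∀ r, j (T.i r) = T'.i (algebraMap O (FractionRing O) r))
    (h1 : j T.z1 = T'.z1) (h2 : j T.z2 = T'.z2) (h3 : j T.z3 = T'.z3)
    (π : O) (redO : O →+* M)
    (sepO : ∀ a : O, (∀ n : ℕ, ∃ b, a = π ^ n * b) → a = 0)
    (kerO : ∀ a, redO a = 0 → ∃ b, a = π * b)
    (unitO : ∀ a, redO a ≠ 0 → IsUnit a) (hπ : π ≠ 0)
    (red : S →+* M)
    (Pc : ∀ a, T.i π * a = a * T.i π)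
    (P0 : ∀ a, T.i π * a = 0 → a = 0)
    (sep : ∀ a, (∀ n : ℕ, ∃ b, a = T.i π ^ n * b) → a = 0)
    (ker : ∀ a, red a = 0 → ∃ b, a = T.i π * b)
    (redP : red (T.i π) = 0) : OrdLoc red (T.i π) j := by
  have hπK : algebraMap O (FractionRing O) π ≠ 0 := by
    rw [Ne, FaithfulSMul.algebraMap_eq_zero_iff]; exact hπ
  refine ⟨Pc, P0, sep, ker, redP, ?_, ?_, ?_⟩
  · rw [injective_iff_map_eq_zero]
    intro x hx
    obtain ⟨c, rfl⟩ := T.exists_sm x
    rw [j_sm T T' j hji h1 h2 h3, ← T'.sm_zero] at hx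
    have h4 := T'.sm_inj hx
    have h5 : c = fun _ _ _ => 0 := by
      funext a b d
      have h6 := congrFun (congrFun (congrFun h4 a) b) d
      simpa using h6
    rw [h5, T.sm_zero]
  · intro x
    obtain ⟨c, rfl⟩ := T'.exists_sm x
    have h4 : ∀ a b d, ∃ (n : ℕ) (y : O), algebraMap O (FractionRing O) π ^ n * c a b d =
        algebraMap O (FractionRing O) y := fun a b d => frac_pow redO π sepO kerO unitO (c a b d)
    choose n y hn using h4
    let N : ℕ := ∑ a, ∑ b, ∑ d, n a b d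
    have hN : ∀ a b d, n a b d ≤ N := by
      intro a b d
      calc n a b d ≤ ∑ d, n a b d := Finset.single_le_sum (f := fun d => n a b d)
            (fun _ _ => Nat.zero_le _) (Finset.mem_univ d)
        _ ≤ ∑ b, ∑ d, n a b d := Finset.single_le_sum (f := fun b => ∑ d, n a b d)
            (fun _ _ => Nat.zero_le _) (Finset.mem_univ b)
        _ ≤ N := Finset.single_le_sum (f := fun a => ∑ b, ∑ d, n a b d)
            (fun _ _ => Nat.zero_le _) (Finset.mem_univ a)
    refine ⟨N, T.sm (fun a b d => π ^ (N - n a b d) * y a b d), ?_⟩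
    rw [hji, ← map_pow, T'.mul_sm, j_sm T T' j hji h1 h2 h3]
    congr 1
    funext a b d
    rw [map_mul, map_pow, ← hn, ← mul_assoc, ← pow_add, Nat.sub_add_cancel (hN a b d)]
  · intro x hx
    obtain ⟨c, rfl⟩ := T'.exists_sm x
    rw [hji, T'.mul_sm, ← T'.sm_zero] at hx
    have h4 := T'.sm_inj hx
    have h5 : c = fun _ _ _ => 0 := by
      funext a b d
      have h6 := congrFun (congrFun (congrFun h4 a) b) d
      simpa [hπK, hπ] using h6
    rw [h5, T'.sm_zero]

/-- in a tower over a field without zero divisors every nonzero element is a unit -/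
theorem Tow.isUnit {K E : Type*} [Field K] [Ring E] (T : Tow K E)
    (nzd : ∀ x y : E, x * y = 0 → x = 0 ∨ y = 0) (a : E) (ha : a ≠ 0) : IsUnit a := by
  have _ : Nontrivial E := T.nontrivial
  refine OrdLoc.isUnit_of_finite T.i nzd
    (fun k : Fin 3 × Fin 3 × Fin 3 => T.z1 ^ (k.1 : ℕ) * T.z3 ^ (k.2.1 : ℕ) * T.z2 ^ (k.2.2 : ℕ))
    ?_ a ha
  intro x
  obtain ⟨c, rfl⟩ := T.exists_sm x
  refine ⟨fun k => c k.1 k.2.1 k.2.2, ?_⟩
  simp only [Tow.sm, Fintype.sum_prod_type]

/-- curried to uncurried coordinates (helper17's form) -/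
theorem Tow.basis {K E : Type*} [CommRing K] [Ring E] (T : Tow K E) (x : E) :
    ∃! c : Fin 3 × Fin 3 × Fin 3 → K,
      x = ∑ k, T.i (c k) * (T.z1 ^ (k.1 : ℕ) * T.z3 ^ (k.2.1 : ℕ) * T.z2 ^ (k.2.2 : ℕ)) := by
  obtain ⟨c, hc⟩ := T.exists_sm x
  refine ⟨fun k => c k.1 k.2.1 k.2.2, ?_, ?_⟩
  · simp only [hc, Tow.sm, Fintype.sum_prod_type]
  · intro c' hc'
    have h1 : x = T.sm (fun a b d => c' (a, b, d)) := by
      simp only [hc', Tow.sm, Fintype.sum_prod_type]
    have h2 := T.sm_inj (hc.symm.trans h1)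
    funext k
    obtain ⟨a, b, d⟩ := k
    rw [h2]

end frac

end Pool.Agent.H.MP_9e990c_al.h70
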