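import Pool.Agent.H.MP_9e990c_al.h82.Coord
import Pool.Agent.H.MP_9e990c_al.h70.Tow

/-!
# MP_9e990c_al: `D.Alg` as a tower
-/

namespace Pool.Agent.H.MP_9e990c_al

namespace AlgData

/-- `D.Alg` is a tower over the base ring -/
noncomputable def tow {K : Type*} [CommRing K] (D : AlgData K) : h70.Tow K D.Alg where
  i := D.ofK
  z1 := D.z1
  z2 := D.z2
  z3 := D.z3
  coord := h82.coordP D

end AlgData

end Pool.Agent.H.MP_9e990c_al
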