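import Mathlib

/-!
# MP_9e990c_al: predicates on abstract rings
-/

namespace Pool.Agent.H.MP_9e990c_al

namespace h70

/-- `z k = t(k) z` -/
def Tw {K S : Type*} [CommRing K] [Ring S] (i : K →+* S) (z : S) (t : K →+* K) : Prop :=
  ∀ k, z * i k = i (t k) * z

/-- no element with nonzero residue, fixed by `s`, with central cube, which is not central -/
def NoThree {S M : Type*} [Ring S] [Field M] (red : S →+* M) (s : S →+* S) : Prop :=
  ∀ z : S, red z ≠ 0 → s z = z → (∀ b, z ^ 3 * b = b * z ^ 3) → ∀ b, z * b = b * z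

end h70

end Pool.Agent.H.MP_9e990c_al
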