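import Pool.Agent.H.MP_9e990c_al.h70.Tow
import Pool.Agent.H.MP_9e990c_al.h70.Pred
import Pool.Agent.H.MP_9e990c_al.h17.Deg27
import Pool.Agent.H.MP_9e990c_al.h17.Wit
import Pool.Agent.H.MP_9e990c_al.h32.Descent2

/-!
# MP_9e990c_al, block R: from the order to the final statement
-/

namespace Pool.Agent.H.MP_9e990c_al.h70

/-- compatible towers over `O` and `Frac O`, with the residue map on the order -/
structure TowPair (O S M E : Type) [CommRing O] [IsDomain O] [Ring S] [Field M] [Ring E] where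
  T : Tow O S
  T' : Tow (FractionRing O) E
  j : S →+* E
  hji : ∀ r, j (T.i r) = T'.i (algebraMap O (FractionRing O) r)
  hj1 : j T.z1 = T'.z1
  hj2 : j T.z2 = T'.z2
  hj3 : j T.z3 = T'.z3
  π : O
  hπ : π ≠ 0
  redO : O →+* M
  sepO : ∀ a : O, (∀ n : ℕ, ∃ b, a = π ^ n * b) → a = 0
  kerO : ∀ a, redO a = 0 → ∃ b, a = π * b
  unitO : ∀ a, redO a ≠ 0 → IsUnit a
  red : S →+* M
  Pc : ∀ a, T.i π * a = a * T.i π
  P0 : ∀ a, T.i π * a = 0 → a = 0
  sep : ∀ a, (∀ n : ℕ, ∃ b, a = T.i π ^ n * b) → a = 0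
  ker : ∀ a, red a = 0 → ∃ b, a = T.i π * b
  redP : red (T.i π) = 0

namespace TowPair

variable {O S M E : Type} [CommRing O] [IsDomain O] [Ring S] [Field M] [Ring E]
  (A : TowPair O S M E)

theorem ordLoc : OrdLoc A.red (A.T.i A.π) A.j :=
  ordLoc_of_tow A.T A.T' A.j A.hji A.hj1 A.hj2 A.hj3 A.π A.redO A.sepO A.kerO A.unitO A.hπ A.red
    A.Pc A.P0 A.sep A.ker A.redP

include A in
theorem isUnitE (x : E) (hx : x ≠ 0) : IsUnit x :=
  A.T'.isUnit (fun _ _ h => A.ordLoc.no_zero_div h) x hx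

/-- elements of the order with nonzero residue are units of the order -/
theorem unit (a : S) (ha : A.red a ≠ 0) : IsUnit a :=
  A.ordLoc.isUnit_of_red A.isUnitE ha

/-- the tower over `Frac O` is a division ring -/
@[reducible] noncomputable def divisionRing : DivisionRing E :=
  haveI : Nontrivial E := A.T'.nontrivial
  DivisionRing.ofIsUnitOrEqZero (fun x => (em (x = 0)).symm.imp (A.isUnitE x) id)

end TowPair

/-- the final statement -/
def Final : Prop :=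
  ∃ (F : Type) (_ : Field F) (D : Type) (_ : DivisionRing D) (_ : Algebra F D),
    (∃ ζ : F, IsPrimitiveRoot ζ 3) ∧ Algebra.IsCentral F D ∧ Module.finrank F D = 27 ^ 2 ∧
    ∀ x : D, x ^ 3 ∈ (algebraMap F D).range → x ∈ (algebraMap F D).range

/-- division ring version -/
theorem final_div {K E : Type} [Field K] [DivisionRing E] (T : Tow K E)
    (t1 t2 t3 : K →+* K)
    (o1 : ∀ x, t1 (t1 (t1 x)) = x) (o2 : ∀ x, t2 (t2 (t2 x)) = x) (o3 : ∀ x, t3 (t3 (t3 x)) = x)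
    (c12 : ∀ x, t1 (t2 x) = t2 (t1 x)) (c13 : ∀ x, t1 (t3 x) = t3 (t1 x))
    (c23 : ∀ x, t2 (t3 x) = t3 (t2 x)) (x1 x2 x3 : K)
    (h11 : t1 x1 ≠ x1) (h22 : t2 x2 ≠ x2) (h33 : t3 x3 ≠ x3)
    (h21 : t2 x1 = x1) (h23 : t2 x3 = x3) (h31 : t3 x1 = x1)
    (m1 : Tw T.i T.z1 t1) (m2 : Tw T.i T.z2 t2) (m3 : Tw T.i T.z3 t3)
    (s' : E →+* E) (ss : ∀ x, s' (s' x) = x) (sK : K →+* K) (hsi : ∀ k, s' (T.i k) = T.i (sK k))
    (η : K) (η1 : t1 η = η) (η2 : t2 η = η) (η3 : t3 η = η) (hη : sK η ≠ η)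
    (p : K) (p1 : t1 p = p) (p2 : t2 p = p) (p3 : t3 p = p) (ps : sK p = p)
    (p12 : p ^ 12 = -3) (h2 : (2 : K) ≠ 0) (h3 : (3 : K) ≠ 0)
    (main : ∀ x : E, s' x = x → (∀ y, x ^ 3 * y = y * x ^ 3) → ∀ y, x * y = y * x) : Final := by
  have hfin := Pool.Agent.PC.finrank27 T.i t1 t2 t3 o1 o2 o3 c12 c13 c23 x1 x2 x3 h11 h22 h33 h21
    h23 h31 T.z1 T.z2 T.z3 m1 m2 m3 T.basis
  have hmem := fun d => Pool.Agent.PC.mem_center27 T.i t1 t2 t3 o1 o2 o3 c12 c13 c23 x1 x2 x3 h11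
    h22 h33 h21 h23 h31 T.z1 T.z2 T.z3 m1 m2 m3 T.basis (d := d)
  have hcen : ∀ k, t1 k = k → t2 k = k → t3 k = k → T.i k ∈ Subring.center E := by
    intro k k1 k2 k3
    rw [hmem]
    exact ⟨k, k1, k2, k3, rfl⟩
  let s : E ≃+* E := RingEquiv.ofRingHom s' s' (RingHom.ext ss) (RingHom.ext ss)
  have hsapp : ∀ x, s x = s' x := fun x => rfl
  have I : Desc2.Inv s (T.i η) := by
    refine ⟨fun x => ss x, ?_, ?_⟩
    · intro x
      exact (Subring.mem_center_iff.1 (hcen η η1 η2 η3) x).symm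
    · rw [hsapp, hsi]
      intro h
      exact hη (T.i_inj h)
  have _ : Module.Finite (Subring.center E) E := Pool.Agent.PC.finite_of_27 hfin
  have hz := Pool.Agent.PC.zeta_prim p p12 h2 h3
  set ζ : K := (-1 + p ^ 6) / 2 with hζ
  have fixζ : ∀ g : K →+* K, g p = p → g ζ = ζ := by
    intro g hg
    rw [hζ, map_div₀, map_add, map_neg, map_one, map_pow, hg, map_ofNat]
  refine I.final hfin (T.i ζ) ?_ ?_ ?_ ?_ ?_
  · rw [← map_pow, hz.pow_eq_one, map_one]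
  · intro l hl
    apply hz.dvd_of_pow_eq_one
    apply T.i_inj
    rw [map_pow, hl, map_one]
  · exact hcen ζ (fixζ t1 p1) (fixζ t2 p2) (fixζ t3 p3)
  · rw [hsapp, hsi, fixζ sK ps]
  · intro z hz hz3
    rw [Subring.mem_center_iff] at hz3 ⊢
    intro y
    exact (main z hz (fun y => (hz3 y).symm) y).symm

/-- from the order to the final statement -/
theorem TowPair.final {O S M E : Type} [CommRing O] [IsDomain O] [Ring S] [Field M] [Ring E]
    (A : TowPair O S M E)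
    (t1 t2 t3 : FractionRing O →+* FractionRing O)
    (o1 : ∀ x, t1 (t1 (t1 x)) = x) (o2 : ∀ x, t2 (t2 (t2 x)) = x) (o3 : ∀ x, t3 (t3 (t3 x)) = x)
    (c12 : ∀ x, t1 (t2 x) = t2 (t1 x)) (c13 : ∀ x, t1 (t3 x) = t3 (t1 x))
    (c23 : ∀ x, t2 (t3 x) = t3 (t2 x)) (x1 x2 x3 : FractionRing O)
    (h11 : t1 x1 ≠ x1) (h22 : t2 x2 ≠ x2) (h33 : t3 x3 ≠ x3)
    (h21 : t2 x1 = x1) (h23 : t2 x3 = x3) (h31 : t3 x1 = x1)
    (m1 : Tw A.T'.i A.T'.z1 t1) (m2 : Tw A.T'.i A.T'.z2 t2) (m3 : Tw A.T'.i A.T'.z3 t3)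
    (s : S →+* S) (sP : s (A.T.i A.π) = A.T.i A.π)
    (s' : E →+* E) (ss : ∀ x, s' (s' x) = x) (hs' : ∀ a, s' (A.j a) = A.j (s a))
    (sK : FractionRing O →+* FractionRing O) (hsi : ∀ k, s' (A.T'.i k) = A.T'.i (sK k))
    (η : FractionRing O) (η1 : t1 η = η) (η2 : t2 η = η) (η3 : t3 η = η) (hη : sK η ≠ η)
    (p : FractionRing O) (p1 : t1 p = p) (p2 : t2 p = p) (p3 : t3 p = p) (ps : sK p = p)
    (p12 : p ^ 12 = -3) (h2 : (2 : FractionRing O) ≠ 0) (h3 : (3 : FractionRing O) ≠ 0)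
    (main : NoThree A.red s) : Final := by
  letI := A.divisionRing
  exact final_div (E := E) A.T' t1 t2 t3 o1 o2 o3 c12 c13 c23 x1 x2 x3 h11 h22 h33 h21 h23 h31 m1 m2
    m3 s' ss sK hsi η η1 η2 η3 hη p p1 p2 p3 ps p12 h2 h3
    (fun x hx h => A.ordLoc.transfer s sP s' hs' main x hx h)

end Pool.Agent.H.MP_9e990c_al.h70
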