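import Pool.Agent.H.MP_9e990c_al.h79.More
import Pool.Agent.H.MP_9e990c_al.h70.Pred

/-!
# MP_9e990c_al: the commutation rules of `D.Alg` as predicates on abstract rings

On `D.Alg` the notation `*` elaborates to `Cyc.instMul`, in abstract rings to the multiplication
of the ring structure; `mul_path` translates between the two.
-/

namespace Pool.Agent.H.MP_9e990c_al

namespace h70

theorem mul_path {K : Type*} [CommRing K] (D : AlgData K) :
    (@Cyc.instMul D.A3 _ D.d2 : Mul D.Alg) =
      @Distrib.toMul D.Alg (@instDistribOfSemiring D.Alg (@Ring.toSemiring D.Alg inferInstance)) :=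
  rfl

theorem tw1 {K : Type*} [CommRing K] (D : AlgData K) : Tw D.ofK D.z1 D.s1 := by
  intro k
  have h := D.z1_ofK k
  rw [mul_path] at h
  exact h

theorem tw2 {K : Type*} [CommRing K] (D : AlgData K) : Tw D.ofK D.z2 D.s2 := by
  intro k
  have h := D.z2_ofK k
  rw [mul_path] at h
  exact h

theorem tw3 {K : Type*} [CommRing K] (D : AlgData K) : Tw D.ofK D.z3 D.s3 := by
  intro k
  have h := D.z3_ofK k
  rw [mul_path] at h
  exact h

/-- translation of `NoThree` for `D.Alg` -/
theorem noThree_alg {K M : Type*} [CommRing K] [Field M] (D : AlgData K) (red : D.Alg →+* M)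
    (s : D.Alg →+* D.Alg)
    (h : ∀ z : D.Alg, red z ≠ 0 → s z = z → (∀ b, z ^ 3 * b = b * z ^ 3) → ∀ b, z * b = b * z) :
    NoThree red s := by
  rw [mul_path] at h
  exact h

end h70

end Pool.Agent.H.MP_9e990c_al
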