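import Pool.Agent.H.MP_9e990c_al.h70.Coord
import Pool.Agent.H.MP_9e990c_al.h70.Div
import Pool.Agent.H.MP_9e990c_al.h70.Tw
import Pool.Agent.H.MP_9e990c_al.h17.Frac
import Pool.Agent.H.MP_9e990c_al.h82.OrdIn

/-!
# MP_9e990c_al, glue: from the data over `O` to the final statement
-/

namespace Pool.Agent.H.MP_9e990c_al

namespace h70

open h82

section compat

variable {O : Type*} [CommRing O] [IsDomain O] (D : AlgData O)

theorem compat_frac : D.Compat D.frac (algebraMap O (FractionRing O)) where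
  s1 k := (D.frac_s1 k).symm
  s2 k := (D.frac_s2 k).symm
  s3 k := (D.frac_s3 k).symm
  sg k := (D.frac_sg k).symm
  u1 := rfl
  u3 := rfl
  a1 := rfl
  a2 := rfl
  a3 := rfl

end compat

section

variable {O M : Type} [CommRing O] [IsDomain O] [Field M] (D : AlgData O)

/-- the pair of towers attached to the data `D` and the order structure `A` -/
noncomputable def pairOf (A : OrdIn O D.Alg M) (hi : A.i = D.ofK)
    (unitO : ∀ a, A.redO a ≠ 0 → IsUnit a) (hπ : A.pi ≠ 0) :
    TowPair O D.Alg M D.frac.Alg where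
  T := D.tow
  T' := D.frac.tow
  j := AlgData.map (compat_frac D)
  hji r := AlgData.map_ofK (compat_frac D) r
  hj1 := AlgData.map_z1 (compat_frac D)
  hj2 := AlgData.map_z2 (compat_frac D)
  hj3 := AlgData.map_z3 (compat_frac D)
  π := A.pi
  hπ := hπ
  redO := A.redO
  sepO := A.pi_sep
  kerO := A.kerO
  unitO := unitO
  red := A.rho
  Pc := by
    have hP : A.P = D.tow.i A.pi := by rw [OrdIn.P, hi]; rfl
    rw [← hP]
    exact A.P_comm
  P0 := by
    have hP : A.P = D.tow.i A.pi := by rw [OrdIn.P, hi]; rfl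
    rw [← hP]
    exact A.P_reg
  sep := by
    have hP : A.P = D.tow.i A.pi := by rw [OrdIn.P, hi]; rfl
    rw [← hP]
    exact A.sep
  ker := by
    have hP : A.P = D.tow.i A.pi := by rw [OrdIn.P, hi]; rfl
    rw [← hP]
    exact A.ker
  redP := by
    have hP : A.P = D.tow.i A.pi := by rw [OrdIn.P, hi]; rfl
    rw [← hP]
    exact A.rho_P

/-- the final statement from the data, the order and the theorem on the order -/
theorem final_of_data (A : OrdIn O D.Alg M) (hi : A.i = D.ofK)
    (unitO : ∀ a, A.redO a ≠ 0 → IsUnit a) (hπ : A.pi ≠ 0)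
    (main : (∀ a, A.rho a ≠ 0 → IsUnit a) → NoThree A.rho D.sigma)
    (p1 : D.s1 A.pi = A.pi) (p2 : D.s2 A.pi = A.pi) (p3 : D.s3 A.pi = A.pi)
    (ps : D.sg A.pi = A.pi) (h2 : (2 : O) ≠ 0) (h3 : (3 : O) ≠ 0)
    (x1 x2 x3 : O) (h11 : D.s1 x1 ≠ x1) (h22 : D.s2 x2 ≠ x2) (h33 : D.s3 x3 ≠ x3)
    (h21 : D.s2 x1 = x1) (h23 : D.s2 x3 = x3) (h31 : D.s3 x1 = x1)
    (η : O) (η1 : D.s1 η = η) (η2 : D.s2 η = η) (η3 : D.s3 η = η) (hη : D.sg η ≠ η) :
    Final := by
  have inj : Function.Injective (algebraMap O (FractionRing O)) :=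
    IsFractionRing.injective O (FractionRing O)
  have sne : ∀ {s : O →+* O} {s' : FractionRing O →+* FractionRing O} {x : O},
      (∀ k, s' (algebraMap O (FractionRing O) k) = algebraMap O (FractionRing O) (s k)) →
      s x ≠ x → s' (algebraMap O (FractionRing O) x) ≠ algebraMap O (FractionRing O) x := by
    intro s s' x h1 h2 h3
    rw [h1] at h3
    exact h2 (inj h3)
  have seq : ∀ {s : O →+* O} {s' : FractionRing O →+* FractionRing O} {x : O},
      (∀ k, s' (algebraMap O (FractionRing O) k) = algebraMap O (FractionRing O) (s k)) →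
      s x = x → s' (algebraMap O (FractionRing O) x) = algebraMap O (FractionRing O) x := by
    intro s s' x h1 h2
    rw [h1, h2]
  have q7 : (algebraMap O (FractionRing O) A.pi) ^ 12 = -3 := by
    rw [← map_pow, A.pi_pow, map_neg, map_ofNat]
  have q8 : (2 : FractionRing O) ≠ 0 := by
    intro h
    apply h2
    apply inj
    rw [map_ofNat, h, map_zero]
  have q9 : (3 : FractionRing O) ≠ 0 := by
    intro h
    apply h3
    apply inj
    rw [map_ofNat, h, map_zero]
  have q4 : D.sigma (D.ofK A.pi) = D.ofK A.pi := by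
    rw [AlgData.sigma_ofK, ps]
  exact (pairOf D A hi unitO hπ).final D.frac.s1 D.frac.s2 D.frac.s3 D.frac.c1 D.frac.c2 D.frac.c3
    D.frac.s12 D.frac.s13
    (fun x => (D.frac.s32 x).symm) (algebraMap O _ x1) (algebraMap O _ x2) (algebraMap O _ x3)
    (sne D.frac_s1 h11) (sne D.frac_s2 h22) (sne D.frac_s3 h33)
    (seq D.frac_s2 h21) (seq D.frac_s2 h23) (seq D.frac_s3 h31)
    (tw1 D.frac) (tw2 D.frac) (tw3 D.frac) D.sigma q4 D.frac.sigma D.frac.sigma_sigma
    (fun a => (AlgData.map_sigma (compat_frac D) a).symm) D.frac.sg D.frac.sigma_ofK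
    (algebraMap O _ η) (seq D.frac_s1 η1) (seq D.frac_s2 η2) (seq D.frac_s3 η3)
    (sne D.frac_sg hη) (algebraMap O _ A.pi) (seq D.frac_s1 p1) (seq D.frac_s2 p2)
    (seq D.frac_s3 p3) (seq D.frac_sg ps) q7 q8 q9
    (main (pairOf D A hi unitO hπ).unit)

end

end h70

end Pool.Agent.H.MP_9e990c_al
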