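import Pool.Agent.H.MP_9e990c_al.h70.Glue
import Pool.Agent.H.MP_9e990c_al.h17.Wit
import Pool.Agent.H.MP_9e990c_al.h82.GoodEx

/-!
# MP_9e990c_al: the main theorem
-/

namespace Pool.Agent.H.MP_9e990c_al

namespace h70

open h82 Base N9e

theorem one_ne_six : (xx 4 : MM) ^ 3 * (xx 4) ^ 3 ≠ 1 := by
  intro h
  have h1 : algebraMap PA MM (MvPolynomial.X 4 ^ 3 * MvPolynomial.X 4 ^ 3) = algebraMap PA MM 1 := by
    rw [map_mul, map_pow, map_one]
    exact h
  have h2 := IsFractionRing.injective PA MM h1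
  have h3 := congrArg (MvPolynomial.eval (fun _ => (0 : ZMod 3))) h2
  simp at h3

theorem piO_ne : (piO : O) ≠ 0 := by
  intro h
  have h1 : (1 : O) = 0 := nzdO 1 (by rw [h, zero_mul])
  exact one_ne_zero h1

theorem final : Final := by
  obtain ⟨D, G, hsg⟩ := exists_good
  have two : (2 : O) ≠ 0 := Pool.Agent.PC.two_ne redO
  have three : (3 : O) ≠ 0 := Pool.Agent.PC.three_ne piO nzdO piO_pow
  have mv : ∀ i : Fin 7, sO i (varO i) ≠ varO i := fun i =>
    Pool.Agent.PC.moved redO piO nzdO redO_pi (sO i) (varO i) (sO_self i)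
  have hη : D.sg (varO 4 - gO (varO 4)) ≠ varO 4 - gO (varO 4) := by
    rw [hsg, map_sub, gO_gO]
    intro h
    have h1 : (2 : O) * (varO 4 - gO (varO 4)) = 0 := by linear_combination -h
    have h2 : varO 4 - gO (varO 4) = 0 := (mul_eq_zero.mp h1).resolve_left two
    have h3 : redO (varO 4) = redO (gO (varO 4)) := by rw [← sub_eq_zero, ← map_sub, h2, map_zero]
    have h4 : redO (gO (varO 4)) * redO (varO 4) = 1 := by
      rw [← map_mul, gO_b (by decide), map_one]
    rw [← h3, redO_var, if_neg (by decide)] at h4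
    exact one_ne_six h4
  have fixη : ∀ i : Fin 7, i ≠ 0 → i < 4 → sO i (varO 4 - gO (varO 4)) = varO 4 - gO (varO 4) := by
    intro i h0 h4
    have hi : sO i (varO 4) = varO 4 := sO_ne (by rintro rfl; exact absurd h4 (by decide))
    have h6 : sO i (gO (varO 4)) = gO (varO 4) := by
      have e1 : gO (sO i (gO (varO 4))) = varO 4 := by
        have := gO_sO h0 h4 (varO 4)
        rwa [hi] at this
      have e2 := congrArg gO e1
      rw [gO_gO] at e2
      exact e2
    rw [map_sub, hi, h6]
  exact final_of_data D G.ordIn rfl unitO piO_ne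
    (fun unit => noThree_alg D G.rho D.sigma (fun z hz hs h3 b => G.no_three unit hz hs h3 b))
    (by change D.s1 piO = piO; rw [G.s1, sO_pi]) (by change D.s2 piO = piO; rw [G.s2, sO_pi])
    (by change D.s3 piO = piO; rw [G.s3, sO_pi]) G.sg_pi two three
    (varO 1) (varO 2) (varO 3)
    (by rw [G.s1]; exact mv 1) (by rw [G.s2]; exact mv 2) (by rw [G.s3]; exact mv 3)
    (by rw [G.s2]; exact sO_ne (by decide)) (by rw [G.s2]; exact sO_ne (by decide))
    (by rw [G.s3]; exact sO_ne (by decide))
    (varO 4 - gO (varO 4)) (by rw [G.s1]; exact fixη 1 (by decide) (by decide))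
    (by rw [G.s2]; exact fixη 2 (by decide) (by decide))
    (by rw [G.s3]; exact fixη 3 (by decide) (by decide)) hη

end h70

end Pool.Agent.H.MP_9e990c_al
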