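import Mathlib

/-!
# MP_9e990c_al, block R: from the order to the division ring (abstract)

`S` is an order with a central parameter `P` and a residue map `red : S →+* M`, `M` a field, with
kernel `P S`; `j : S →+* E` is a localisation at the powers of `P`.
-/

namespace Pool.Agent.H.MP_9e990c_al.h70

/-- an order `S` with parameter `P`, residue map `red`, and `E = S[1/P]` -/
structure OrdLoc {S M E : Type*} [Ring S] [Field M] [Ring E]
    (red : S →+* M) (P : S) (j : S →+* E) : Prop where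
  Pc : ∀ a, P * a = a * P
  P0 : ∀ a, P * a = 0 → a = 0
  sep : ∀ a, (∀ n : ℕ, ∃ b, a = P ^ n * b) → a = 0
  ker : ∀ a, red a = 0 → ∃ b, a = P * b
  redP : red P = 0
  jinj : Function.Injective j
  frac : ∀ x, ∃ (n : ℕ) (a : S), j P ^ n * x = j a
  jP0 : ∀ x, j P * x = 0 → x = 0

namespace OrdLoc

variable {S M E : Type*} [Ring S] [Field M] [Ring E]
  {red : S →+* M} {P : S} {j : S →+* E}

section order

lemma Pn_comm (h : ∀ a, P * a = a * P) (n : ℕ) (a : S) : P ^ n * a = a * P ^ n :=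
  ((show Commute P a from h a).pow_left n).eq

lemma Pn0 (h0 : ∀ a, P * a = 0 → a = 0) (n : ℕ) : ∀ a, P ^ n * a = 0 → a = 0 := by
  induction n with
  | zero => intro a h; simpa using h
  | succ n ih =>
    intro a h
    rw [pow_succ, mul_assoc] at h
    exact h0 _ (ih _ h)

/-- every nonzero element is a power of `P` times an element with nonzero residue -/
lemma exists_pow_mul (sep : ∀ a : S, (∀ n : ℕ, ∃ b, a = P ^ n * b) → a = 0)
    (ker : ∀ a, red a = 0 → ∃ b, a = P * b) {a : S} (ha : a ≠ 0) :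
    ∃ (n : ℕ) (a0 : S), a = P ^ n * a0 ∧ red a0 ≠ 0 := by
  by_contra hcon
  push Not at hcon
  apply ha
  apply sep
  intro n
  induction n with
  | zero => exact ⟨a, by simp⟩
  | succ n ih =>
    obtain ⟨b, hb⟩ := ih
    obtain ⟨c, hc⟩ := ker b (hcon n b hb)
    exact ⟨c, by rw [hb, hc, pow_succ, mul_assoc]⟩

/-- the order has no zero divisors -/
lemma order_no_zero_div (Pc : ∀ a, P * a = a * P) (P0 : ∀ a, P * a = 0 → a = 0)
    (sep : ∀ a : S, (∀ n : ℕ, ∃ b, a = P ^ n * b) → a = 0)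
    (ker : ∀ a, red a = 0 → ∃ b, a = P * b) {a b : S} (hab : a * b = 0) : a = 0 ∨ b = 0 := by
  by_contra hcon
  push Not at hcon
  obtain ⟨n, a0, rfl, ha⟩ := exists_pow_mul sep ker hcon.1
  obtain ⟨m, b0, rfl, hb⟩ := exists_pow_mul sep ker hcon.2
  have h1 : P ^ n * (P ^ m * (a0 * b0)) = 0 := by
    rw [← hab, mul_assoc, ← mul_assoc a0, ← Pn_comm Pc m a0, mul_assoc]
  have h2 := Pn0 P0 m _ (Pn0 P0 n _ h1)
  have h3 : red a0 * red b0 = 0 := by rw [← map_mul, h2, map_zero]
  rcases mul_eq_zero.mp h3 with h | h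
  · exact ha h
  · exact hb h

end order

variable (h : OrdLoc red P j)
include h

lemma jPn0 (n : ℕ) (x : E) (hx : j P ^ n * x = 0) : x = 0 := Pn0 h.jP0 n x hx

lemma jPc (x : E) : j P * x = x * j P := by
  obtain ⟨n, a, ha⟩ := h.frac x
  have h1 : j P ^ n * (j P * x - x * j P) = 0 := by
    rw [mul_sub, ← mul_assoc, ← mul_assoc, ← pow_succ, pow_succ', mul_assoc, ha, ← map_mul,
      ← map_mul, h.Pc, sub_self]
  exact sub_eq_zero.mp (h.jPn0 n _ h1)

lemma jPnc (n : ℕ) (x : E) : j P ^ n * x = x * j P ^ n :=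
  ((show Commute (j P) x from h.jPc x).pow_left n).eq

/-- no zero divisors in `S[1/P]` -/
lemma no_zero_div {x y : E} (hxy : x * y = 0) : x = 0 ∨ y = 0 := by
  obtain ⟨n, a, ha⟩ := h.frac x
  obtain ⟨m, b, hb⟩ := h.frac y
  have h1 : j (a * b) = 0 := by
    rw [map_mul, ← ha, ← hb, mul_assoc, ← mul_assoc x, ← h.jPnc m x, mul_assoc, hxy]
    simp
  have h2 : a * b = 0 := h.jinj (by rw [h1, map_zero])
  rcases order_no_zero_div h.Pc h.P0 h.sep h.ker h2 with h3 | h3
  · left; apply h.jPn0 n; rw [ha, h3, map_zero]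
  · right; apply h.jPn0 m; rw [hb, h3, map_zero]

omit h in
/-- a ring without zero divisors, left finite dimensional over a field: elements `≠ 0` are units -/
lemma isUnit_of_finite {K E : Type*} [Field K] [Ring E] [Nontrivial E] (ofK : K →+* E)
    (nzd : ∀ x y : E, x * y = 0 → x = 0 ∨ y = 0)
    {I : Type*} [Fintype I] (e : I → E)
    (hspan : ∀ x : E, ∃ c : I → K, x = ∑ i, ofK (c i) * e i)
    (a : E) (ha : a ≠ 0) : IsUnit a := by
  let _ : Module K E := Module.compHom E ofK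
  have hsm : ∀ (k : K) (x : E), k • x = ofK k * x := fun k x => rfl
  have _ : Module.Finite K E := by
    refine ⟨⟨(Set.finite_range e).toFinset, ?_⟩⟩
    rw [Set.Finite.coe_toFinset, eq_top_iff]
    intro x _
    obtain ⟨c, rfl⟩ := hspan x
    refine Submodule.sum_mem _ fun i _ => ?_
    rw [← hsm (c i) (e i)]
    exact Submodule.smul_mem _ _ (Submodule.subset_span ⟨i, rfl⟩)
  have key : ∀ b : E, b ≠ 0 → ∃ x, x * b = 1 := by
    intro b hb
    let f : E →ₗ[K] E :=
      { toFun := fun x => x * b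
        map_add' := fun x y => add_mul x y b
        map_smul' := fun k x => by simp [hsm, mul_assoc] }
    have hinj : Function.Injective f := by
      rw [injective_iff_map_eq_zero]
      intro x hx
      rcases nzd x b hx with h | h
      · exact h
      · exact absurd h hb
    obtain ⟨x, hx⟩ := (LinearMap.injective_iff_surjective.mp hinj) 1
    exact ⟨x, hx⟩
  obtain ⟨x, hx⟩ := key a ha
  have hx0 : x ≠ 0 := by
    rintro rfl
    rw [zero_mul] at hx
    exact zero_ne_one hx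
  obtain ⟨y, hy⟩ := key x hx0
  have hya : y = a := by
    calc y = y * (x * a) := by rw [hx, mul_one]
      _ = a := by rw [← mul_assoc, hy, one_mul]
  rw [hya] at hy
  exact ⟨⟨a, x, hy, hx⟩, rfl⟩

/-- an element of the order with nonzero residue is a unit of the order -/
lemma isUnit_of_red (hu : ∀ x : E, x ≠ 0 → IsUnit x) {a : S} (ha : red a ≠ 0) : IsUnit a := by
  have key : ∀ (n : ℕ) (b : S), a * b = P ^ n → ∃ c, a * c = 1 := by
    intro n
    induction n with
    | zero => intro b hb; exact ⟨b, by simpa using hb⟩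
    | succ n ih =>
      intro b hb
      have h1 : red a * red b = 0 := by
        rw [← map_mul, hb, pow_succ, map_mul, h.redP, mul_zero]
      obtain ⟨c, rfl⟩ := h.ker b ((mul_eq_zero.mp h1).resolve_left ha)
      apply ih c
      have h2 : P * (a * c - P ^ n) = 0 := by
        rw [mul_sub, ← mul_assoc, h.Pc a, mul_assoc, hb, pow_succ', sub_self]
      exact sub_eq_zero.mp (h.P0 _ h2)
  have ha0 : j a ≠ 0 := by
    intro h0
    apply ha
    rw [show a = 0 from h.jinj (by rw [h0, map_zero]), map_zero]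
  obtain ⟨u, hu⟩ := hu _ ha0
  obtain ⟨n, b, hb⟩ := h.frac (↑u⁻¹ : E)
  have h1 : a * b = P ^ n := by
    apply h.jinj
    rw [map_mul, ← hb, ← hu, ← mul_assoc, ← h.jPnc n, mul_assoc, Units.mul_inv, mul_one, map_pow]
  obtain ⟨c, hc⟩ := key n b h1
  have hc' : j a * j c = 1 := by rw [← map_mul, hc, map_one]
  have h3 : j c = ↑u⁻¹ := by
    rw [← hu] at hc'
    calc j c = ↑u⁻¹ * (↑u * j c) := by rw [← mul_assoc, Units.inv_mul, one_mul]
      _ = ↑u⁻¹ := by rw [hc', mul_one]
  have h4 : c * a = 1 := by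
    apply h.jinj
    rw [map_mul, h3, ← hu, Units.inv_mul, map_one]
  exact ⟨⟨a, c, hc, h4⟩, rfl⟩

/-- transfer: no 3-central elements in the order ⟹ none in `E` -/
lemma transfer (s : S →+* S) (hsP : s P = P) (s' : E →+* E) (hs' : ∀ a, s' (j a) = j (s a))
    (main : ∀ z : S, red z ≠ 0 → s z = z → (∀ b, z ^ 3 * b = b * z ^ 3) → ∀ b, z * b = b * z)
    (x : E) (hx : s' x = x) (h3 : ∀ y, x ^ 3 * y = y * x ^ 3) : ∀ y, x * y = y * x := by
  by_cases hx0 : x = 0
  · intro y; simp [hx0]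
  obtain ⟨n, a, ha⟩ := h.frac x
  have ha0 : a ≠ 0 := by
    rintro rfl
    exact hx0 (h.jPn0 n x (by rw [ha, map_zero]))
  obtain ⟨m, z, rfl, hz⟩ := exists_pow_mul h.sep h.ker ha0
  have hsz : s z = z := by
    have h1 : s (P ^ m * z) = P ^ m * z := by
      apply h.jinj
      rw [← hs', ← ha, map_mul, map_pow, hs', hsP, hx]
    rw [map_mul, map_pow, hsP] at h1
    have h2 : P ^ m * (s z - z) = 0 := by rw [mul_sub, h1, sub_self]
    exact sub_eq_zero.mp (Pn0 h.P0 m _ h2)
  have hxz : j P ^ n * x = j P ^ m * j z := by rw [ha, map_mul, map_pow]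
  -- cube
  have hcube : (j P ^ n) ^ 3 * x ^ 3 = (j P ^ m) ^ 3 * j z ^ 3 := by
    have c1 : Commute (j P ^ n) x := h.jPnc n x
    have c2 : Commute (j P ^ m) (j z) := h.jPnc m (j z)
    rw [← c1.mul_pow, ← c2.mul_pow, hxz]
  have hz3 : ∀ b, z ^ 3 * b = b * z ^ 3 := by
    intro b
    have h1 : (j P ^ m) ^ 3 * (j z ^ 3 * j b) = (j P ^ m) ^ 3 * (j b * j z ^ 3) := by
      have e1 : (j P ^ m) ^ 3 * (j b * j z ^ 3) = j b * ((j P ^ m) ^ 3 * j z ^ 3) := by
        rw [← mul_assoc, ← mul_assoc, ← pow_mul, h.jPnc (m * 3) (j b)]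
      rw [e1, ← hcube, ← mul_assoc, ← hcube, mul_assoc, h3 (j b), ← mul_assoc, ← mul_assoc,
        ← pow_mul, h.jPnc (n * 3) (j b)]
    rw [← pow_mul] at h1
    have h2 : j P ^ (m * 3) * (j z ^ 3 * j b - j b * j z ^ 3) = 0 := by rw [mul_sub, h1, sub_self]
    have h4 := sub_eq_zero.mp (h.jPn0 _ _ h2)
    apply h.jinj
    simpa using h4
  have hzc := main z hz hsz hz3
  have hjz : ∀ y, j z * y = y * j z := by
    intro y
    obtain ⟨k, c, hc⟩ := h.frac y
    have h1 : j P ^ k * (j z * y - y * j z) = 0 := by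
      rw [mul_sub, ← mul_assoc, h.jPnc k (j z), mul_assoc, hc, ← mul_assoc, hc, ← map_mul,
        ← map_mul, hzc, sub_self]
    exact sub_eq_zero.mp (h.jPn0 _ _ h1)
  intro y
  have h1 : j P ^ n * (x * y - y * x) = 0 := by
    rw [mul_sub, ← mul_assoc, hxz, mul_assoc, hjz y, ← mul_assoc (j P ^ n), h.jPnc n y, mul_assoc y,
      hxz, ← mul_assoc, ← mul_assoc, h.jPnc m y, sub_self]
  exact sub_eq_zero.mp (h.jPn0 _ _ h1)

end OrdLoc
end Pool.Agent.H.MP_9e990c_al.h70
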